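import Pool.Agent.H65.CRG.TD
import Pool.Agent.H37.CV.All
import Pool.Agent.H70.CRZ.LF

/-!
# The L-functions of the primitive ray class characters of conductor `(q)` have a functional
equation of degree `2 n`
-/

set_option autoImplicit false

open NumberField NumberField.InfinitePlace Complex Filter Topology MeasureTheory

namespace Pool.Agent.H19.CRG

open Pool.Agent.H65.CRZ Pool.Agent.H65.CRG Pool.Agent.H28.RC Pool.Agent.H25.HK Pool.Agent.H37.CV
open Pool.Agent.H70.CRZ (cpow_exp nm_top)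

lemma cB_cpow {K : Type} [Field K] [NumberField K] {m : Ideal (𝓞 K)} (h : 0 < cnd K m) (s : ℂ) :
    ((cB K m : ℝ) : ℂ) ^ s = ((cnd K m : ℝ) : ℂ) ^ (s / 2) *
      ((2 * (Real.pi : ℂ)) ^ (-s)) ^ nrComplexPlaces K := by
  have hpi : (0 : ℝ) < 2 * Real.pi := by positivity
  have hA : 0 < cB K m := by
    unfold cB
    positivity
  have e1 : (2 * (Real.pi : ℂ)) = ((2 * Real.pi : ℝ) : ℂ) := by
    push_cast
    rfl
  have e2 : Real.log (cB K m) = Real.log (cnd K m) / 2 -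
      nrComplexPlaces K * Real.log (2 * Real.pi) := by
    unfold cB
    rw [Real.log_div (by positivity) (by positivity), Real.log_sqrt h.le, Real.log_pow]
  rw [e1, cpow_exp hA, cpow_exp h, cpow_exp hpi, ← Complex.exp_nat_mul, ← Complex.exp_add, e2]
  congr 1
  push_cast
  ring

theorem lf_of (hEN : Pool.Agent.H37.CV.T_EN) (h1 : Pool.Agent.H65.CRG.T_H1)
    (h2 : Pool.Agent.H65.CRZ.T_H2) (h3 : Pool.Agent.H65.CRG.T_CQ) : Pool.Agent.H65.CRG.T_LF := by
  intro K _ _ _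
  obtain ⟨hr, hfr, c, hc, hcq⟩ := h3 K
  obtain ⟨C₁, hC₁, hb₁⟩ := h1 K
  obtain ⟨C₂, hC₂, hb₂, -⟩ := h2 K
  refine ⟨max C₁ C₂, ⌈1 / c⌉₊, hC₁.trans (le_max_left _ _), ?_⟩
  intro q hq hq0 χ hχ
  have hf : χ.f = qi K q := hχ
  obtain ⟨hcA, hnm⟩ := hcq q hq
  have hq2 : (2 : ℝ) ≤ q := by exact_mod_cast hq.two_le
  have hA1 : 1 ≤ cB K (qi K q) := by
    rw [hcA]
    have h4 : 1 / c ≤ (q : ℝ) := (Nat.le_ceil _).trans (by exact_mod_cast hq0)
    rw [div_le_iff₀ hc] at h4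
    have h5 : (q : ℝ) ≤ (q : ℝ) ^ nrComplexPlaces K := by
      have h6 : (q : ℝ) ^ 1 ≤ (q : ℝ) ^ nrComplexPlaces K :=
        pow_le_pow_right₀ (by linarith) hr
      rwa [pow_one] at h6
    have h7 : c * (q : ℝ) ≤ c * (q : ℝ) ^ nrComplexPlaces K :=
      mul_le_mul_of_nonneg_left h5 hc.le
    linarith
  have hne : χ.f ≠ ⊤ := by
    intro h4
    rw [← hf, h4, nm_top] at hnm
    have h5 : (1 : ℝ) < (q : ℝ) ^ Module.finrank ℚ K :=
      one_lt_pow₀ (by linarith) (by omega)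
    linarith
  obtain ⟨Z, Λ, ε, hZ, hΛ, hΛ1, hε, hΛ2, -⟩ := hEN K χ hne
  have hex : ∃ Z, IsEnt χ Z := ⟨Z, hZ⟩
  have hent : IsEnt χ (Zx χ) := by
    unfold Zx
    rw [dif_pos hex]
    exact hex.choose_spec
  have hZx : Zx χ = Z := by
    have ha : AnalyticOnNhd ℂ (Zx χ) Set.univ :=
      hent.1.differentiableOn.analyticOnNhd isOpen_univ
    have hb : AnalyticOnNhd ℂ Z Set.univ := hZ.1.differentiableOn.analyticOnNhd isOpen_univ
    have hev : Zx χ =ᶠ[𝓝 (2 : ℂ)] Z := by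
      have ho : IsOpen {s : ℂ | 1 < s.re} := isOpen_lt continuous_const Complex.continuous_re
      have h2' : (2 : ℂ) ∈ {s : ℂ | 1 < s.re} := by
        simp
      filter_upwards [ho.mem_nhds h2'] with s hs
      rw [hent.2 s hs, hZ.2 s hs]
    funext s
    exact ha.eqOn_of_preconnected_of_eventuallyEq hb isPreconnected_univ (Set.mem_univ _) hev
      (Set.mem_univ s)
  have hcnd : 0 < cnd K (qi K q) := by
    by_contra h4
    have h5 : cB K (qi K q) = 0 := by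
      unfold cB
      rw [Real.sqrt_eq_zero_of_nonpos (not_lt.1 h4), zero_div]
    rw [h5] at hA1
    linarith
  have h2n : (2 : ℂ) ^ nrComplexPlaces K ≠ 0 := pow_ne_zero _ two_ne_zero
  refine ⟨hent, hent.1, ⟨fun s => Λ s / 2 ^ nrComplexPlaces K, ε, hΛ.div_const _, hε, ?_, ?_⟩,
    ?_, ?_⟩
  · intro s hs
    change Λ s / 2 ^ nrComplexPlaces K = _
    rw [hΛ1 s hs, hZx, hf, cB_cpow hcnd, Complex.Gammaℂ_def, mul_pow, mul_pow]
    field_simp
  · intro s
    change Λ s / 2 ^ nrComplexPlaces K =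
      ε * (starRingEnd ℂ) (Λ (1 - (starRingEnd ℂ) s) / 2 ^ nrComplexPlaces K)
    rw [map_div₀, map_pow, map_ofNat, ← mul_div_assoc, ← hΛ2 s]
  · intro s hs
    have h4 := hb₁ χ hne (by rw [hf]; exact hA1) (Zx χ) hent s hs
    rw [hf] at h4
    refine h4.trans (Real.rpow_le_rpow_of_exponent_le ?_ (le_max_left _ _))
    have h5 : (1 : ℝ) ≤ 2 + |s.im| := by
      have := abs_nonneg s.im
      linarith
    nlinarith
  · intro s hs
    have h4 := (hb₂ χ s hs).2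
    rw [hent.2 s (by linarith)]
    refine h4.trans (mul_le_mul_of_nonneg_right (le_max_right _ _) (by positivity))

theorem pf_LF (h1 : Pool.Agent.H65.CRG.T_H1) (h2 : Pool.Agent.H65.CRZ.T_H2)
    (h3 : Pool.Agent.H65.CRG.T_CQ) : Pool.Agent.H65.CRG.T_LF :=
  lf_of Pool.Agent.H37.CV.a_EN h1 h2 h3

end Pool.Agent.H19.CRG
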