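import Pool.Agent.H19.CRG.TFa
import Pool.Agent.H37.CA.All

/-!
# From the ray class characters to the irreducible characters, general degree (closed form)
-/

set_option autoImplicit false

namespace Pool.Agent.H19.CRG

open Pool.Agent.H37.CV Pool.Agent.H37.CA

theorem pf_TF : Pool.Agent.H65.CRG.T_TF :=
  tf_of a_EN a_FSI a_CNU a_GCT a_IIR a_FIB a_GRF a_COM a_COR a_CNT a_PNC a_ALF a_OR

end Pool.Agent.H19.CRG
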