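import Pool.Agent.H65.CRG.TL
import Pool.Agent.H3.CRZ.V0

/-!
# The auxiliary function of an L-function, general degree
-/

set_option autoImplicit false

open Complex Set Metric Pool.Agent.H65.CRZ Pool.Agent.H65.CRG

namespace Pool.Agent.H19.CRG

open Pool.Agent.H3.CRZ (cau re_ge im_le two_pow)

/-- Cauchy estimate for the derivatives of an entire function. -/
theorem cauN {f : ℂ → ℂ} (hf : Differentiable ℂ f) (i : ℕ) {s : ℂ} {r M : ℝ} (hr : 0 < r)
    (h : ∀ w : ℂ, ‖w - s‖ = r → ‖f w‖ ≤ M) :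
    ‖iteratedDeriv i f s‖ ≤ i.factorial * M / r ^ i := by
  apply Complex.norm_iteratedDeriv_le_of_forall_mem_sphere_norm_le i hr hf.diffContOnCl
  intro w hw
  apply h
  rw [← dist_eq_norm]
  exact hw

theorem re_le' {w s : ℂ} {r : ℝ} (h : ‖w - s‖ ≤ r) : w.re ≤ s.re + r := by
  have h1 := Complex.abs_re_le_norm (w - s)
  rw [sub_re] at h1
  have := abs_le.mp (h1.trans h)
  linarith [this.2]

theorem re_ge' {w s : ℂ} {r : ℝ} (h : ‖w - s‖ ≤ r) : s.re - r ≤ w.re := by
  have h1 := Complex.abs_re_le_norm (w - s)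
  rw [sub_re] at h1
  have := abs_le.mp (h1.trans h)
  linarith [this.1]

theorem im_le' {w s : ℂ} {r : ℝ} (h : ‖w - s‖ ≤ r) : |w.im| ≤ |s.im| + r := by
  have h1 := (Complex.abs_im_le_norm (w - s)).trans h
  rw [sub_im] at h1
  have h2 : w.im = s.im + (w.im - s.im) := by ring
  calc |w.im| = |s.im + (w.im - s.im)| := by rw [← h2]
    _ ≤ |s.im| + |w.im - s.im| := abs_add_le _ _
    _ ≤ |s.im| + r := by linarith

/-- the choice of the parameter -/
theorem v0_par (T B K₁ K₂ : ℝ) : ∃ A₀ : ℝ, 2 ≤ A₀ ∧ ∀ A : ℝ, A₀ ≤ A →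
    T + 3 ≤ A ∧ K₁ ≤ A ∧ B ≤ Real.log A ∧ 1 ≤ Real.log A ∧
      100 * (2 * B + K₂) ≤ Real.log A := by
  refine ⟨max (max 2 (T + 3)) (max K₁ (max (Real.exp B) (max (Real.exp 1)
    (Real.exp (100 * (2 * B + K₂)))))), (le_max_left _ _).trans (le_max_left _ _), ?_⟩
  intro A hA
  obtain ⟨h1, h2⟩ := max_le_iff.1 hA
  obtain ⟨h3, h4⟩ := max_le_iff.1 h1
  obtain ⟨h5, h6⟩ := max_le_iff.1 h2
  obtain ⟨h7, h8⟩ := max_le_iff.1 h6
  obtain ⟨h9, h10⟩ := max_le_iff.1 h8
  have hA0 : 0 < A := by linarith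
  exact ⟨h4, h5, (Real.le_log_iff_exp_le hA0).2 h7, (Real.le_log_iff_exp_le hA0).2 h9,
    (Real.le_log_iff_exp_le hA0).2 h10⟩

theorem pf_V0 (h1 : Pool.Agent.H65.CRG.T_TR) (h2 : Pool.Agent.H65.CRG.T_QI) :
    Pool.Agent.H65.CRG.T_V0 := by
  intro n N m C b hm hC hb hCb
  obtain ⟨c, hc1, hc2, hc3⟩ := h1 n N m hm
  have hq0 : qm N m 0 = 1 := (h2 N m hm).1
  refine ⟨2 * C + 1, by linarith, fun T hT => ?_⟩
  obtain ⟨B, hB, hc4⟩ := hc3 (2 * b + 1) (T + 1)
  obtain ⟨K₁, hK₁⟩ : ∃ K₁ : ℝ, K₁ = ∑ i ∈ Finset.range (2 * N + 1),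
    (|qm N m i| + 1) * (i.factorial : ℝ) := ⟨_, rfl⟩
  obtain ⟨K₂, hK₂⟩ : ∃ K₂ : ℝ, K₂ = ∑ i ∈ Finset.range (2 * N),
    (|qm N m (i + 1)| + 1) * (((i + 1).factorial : ℝ) * 2 * 4 ^ (i + 1)) := ⟨_, rfl⟩
  obtain ⟨A₀, hA₀, hpar⟩ := v0_par T B K₁ K₂
  refine ⟨A₀, hA₀, ?_⟩
  intro A hA Z hZ s hs1 hs2 hs3
  obtain ⟨hAT, hAK, hAB, hl1, hlK⟩ := hpar A hA
  have hA2 : 2 ≤ A := hA₀.trans hA
  have hA0 : 0 < A := by linarith
  have hl0 : 0 < Real.log A := by linarith
  -- the coefficients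
  have hcb : ∀ (i : ℕ) (w : ℂ), 1 / 8 ≤ w.re → w.re ≤ 2 * b + 1 → |w.im| ≤ T + 1 →
      ‖c A i w‖ ≤ |qm N m i| + 1 := by
    intro i w hw1 hw2 hw3
    have h3 := hc4 A i w hA2 hw1 hw2 hw3
    have h4 : B / Real.log A ≤ 1 := by
      rw [div_le_one hl0]
      exact hAB
    have h5 : ‖c A i w‖ ≤ ‖c A i w - (qm N m i : ℂ)‖ + ‖(qm N m i : ℂ)‖ := by
      have := norm_add_le (c A i w - (qm N m i : ℂ)) (qm N m i : ℂ)
      rwa [sub_add_cancel] at this
    rw [Complex.norm_real, Real.norm_eq_abs] at h5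
    linarith
  have hLn : ‖((2 * Real.log A : ℝ) : ℂ)‖ = 2 * Real.log A := by
    rw [Complex.norm_real, Real.norm_eq_abs, abs_of_nonneg (by linarith)]
  -- the terms
  have hterm : ∀ (i : ℕ) (w : ℂ) (X : ℝ), 1 / 8 ≤ w.re → w.re ≤ 2 * b + 1 → |w.im| ≤ T + 1 →
      ‖iteratedDeriv i Z w‖ ≤ X →
      ‖c A i w / ((2 * Real.log A : ℝ) : ℂ) ^ i * iteratedDeriv i Z w‖ ≤
        (|qm N m i| + 1) * X / (2 * Real.log A) ^ i := by
    intro i w X hw1 hw2 hw3 hX
    rw [norm_mul, norm_div, norm_pow, hLn]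
    have h3 : (0 : ℝ) < (2 * Real.log A) ^ i := by positivity
    rw [div_mul_eq_mul_div, div_le_div_iff_of_pos_right h3]
    exact mul_le_mul (hcb i w hw1 hw2 hw3) hX (norm_nonneg _) (by positivity)
  -- bound of Z
  have hZb : ∀ w : ℂ, -1 ≤ w.re → |w.im| ≤ T + 1 → ‖Z w‖ ≤ A ^ (2 * C) := by
    intro w hw1 hw2
    have h2 := hZ.bd w hw1
    have h3 : (A * (2 + |w.im|)) ^ C ≤ (A * A) ^ C := by
      apply Real.rpow_le_rpow
      · positivity
      · apply mul_le_mul_of_nonneg_left _ hA0.le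
        linarith
      · linarith
    have h4 : (A * A) ^ C = A ^ (2 * C) := by
      rw [← pow_two, ← Real.rpow_natCast, ← Real.rpow_mul hA0.le]
      norm_num
    linarith
  have hAp : (0 : ℝ) < A ^ (2 * C) := Real.rpow_pos_of_pos hA0 _
  have hA21 : A ^ (2 * C + 1) = A ^ (2 * C) * A := by
    rw [Real.rpow_add hA0, Real.rpow_one]
  have hZs : ‖Z s‖ ≤ A ^ (2 * C) := hZb s (by linarith) (by linarith)
  obtain ⟨-, hVd, hV⟩ := hc2 A Z s (by linarith) hZ.diff (by linarith)
  refine ⟨hVd, ?_, ?_, ?_⟩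
  · rw [hA21]
    nlinarith
  · rw [hV, hA21]
    have h3 : ∀ i ∈ Finset.range (2 * N + 1),
        ‖c A i s / ((2 * Real.log A : ℝ) : ℂ) ^ i * iteratedDeriv i Z s‖ ≤
          (|qm N m i| + 1) * (i.factorial : ℝ) * A ^ (2 * C) := by
      intro i _
      have h4 : ‖iteratedDeriv i Z s‖ ≤ i.factorial * A ^ (2 * C) := by
        have := cauN hZ.diff i (s := s) (r := 1) (M := A ^ (2 * C)) one_pos (by
          intro w hw
          apply hZb w
          · linarith [re_ge hw]
          · linarith [im_le hw])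
        rwa [one_pow, div_one] at this
      have h5 := hterm i s _ hs1.le (by linarith) (by linarith) h4
      have h6 : (1 : ℝ) ≤ (2 * Real.log A) ^ i := one_le_pow₀ (by linarith)
      refine h5.trans ((div_le_self (by positivity) h6).trans (le_of_eq (by ring)))
    refine (norm_sum_le_of_le _ h3).trans ?_
    rw [← Finset.sum_mul, ← hK₁]
    nlinarith
  · intro hbs
    have hone : ∀ w : ℂ, b - 1 / 2 ≤ w.re → ‖Z w - 1‖ ≤ 2 / 100 := by
      intro w hw
      have := hZ.one w (by linarith)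
      exact this.trans (two_pow hC hCb hw)
    have hZ2 : ∀ w : ℂ, b - 1 / 2 ≤ w.re → ‖Z w‖ ≤ 2 := by
      intro w hw
      have h3 := norm_add_le (Z w - 1) 1
      rw [sub_add_cancel, norm_one] at h3
      linarith [hone w hw]
    have hdZ : ‖deriv Z s‖ ≤ 8 / 100 := by
      have h9 := cau (f := fun z => Z z - 1) (hZ.diff.sub_const 1) (s := s) (r := 1 / 4)
        (M := 2 / 100) (by norm_num) (by
          intro u hu
          apply hone
          linarith [re_ge hu])
      rw [deriv_sub_const_fun] at h9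
      linarith
    have hV1 : ∀ w : ℂ, ‖w - s‖ ≤ 1 / 4 → ‖VQ n N m A Z w - 1‖ ≤ 3 / 100 := by
      intro w hw
      have g1 : b - 1 / 4 ≤ w.re := by linarith [re_ge' hw]
      have g2 : w.re ≤ 2 * b + 1 := by linarith [re_le' hw]
      have g3 : |w.im| ≤ T + 1 := by linarith [im_le' hw]
      obtain ⟨-, -, hVw⟩ := hc2 A Z w (by linarith) hZ.diff (by linarith)
      rw [hVw, Finset.sum_range_succ', pow_zero, div_one, iteratedDeriv_zero]
      have e1 : ∑ i ∈ Finset.range (2 * N), c A (i + 1) w / ((2 * Real.log A : ℝ) : ℂ) ^ (i + 1) *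
          iteratedDeriv (i + 1) Z w + c A 0 w * Z w - 1 =
          ∑ i ∈ Finset.range (2 * N), c A (i + 1) w / ((2 * Real.log A : ℝ) : ℂ) ^ (i + 1) *
          iteratedDeriv (i + 1) Z w + ((c A 0 w - 1) * Z w + (Z w - 1)) := by ring
      rw [e1]
      have h3 : ∀ i ∈ Finset.range (2 * N),
          ‖c A (i + 1) w / ((2 * Real.log A : ℝ) : ℂ) ^ (i + 1) * iteratedDeriv (i + 1) Z w‖ ≤
          (|qm N m (i + 1)| + 1) * (((i + 1).factorial : ℝ) * 2 * 4 ^ (i + 1)) / Real.log A := by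
        intro i _
        have h4 : ‖iteratedDeriv (i + 1) Z w‖ ≤ ((i + 1).factorial : ℝ) * 2 * 4 ^ (i + 1) := by
          have := cauN hZ.diff (i + 1) (s := w) (r := 1 / 4) (M := 2) (by norm_num) (by
            intro u hu
            apply hZ2
            linarith [re_ge hu])
          refine this.trans (le_of_eq ?_)
          rw [one_div, inv_pow, div_inv_eq_mul]
        have h5 := hterm (i + 1) w _ (by linarith) g2 g3 h4
        refine h5.trans (div_le_div_of_nonneg_left (by positivity) hl0 ?_)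
        calc Real.log A ≤ 2 * Real.log A := by linarith
          _ = (2 * Real.log A) ^ 1 := (pow_one _).symm
          _ ≤ (2 * Real.log A) ^ (i + 1) := pow_le_pow_right₀ (by linarith) (by omega)
      have h4 := norm_sum_le_of_le _ h3
      rw [← Finset.sum_div, ← hK₂] at h4
      have h5 : ‖c A 0 w - 1‖ ≤ B / Real.log A := by
        have := hc4 A 0 w hA2 (by linarith) g2 g3
        rwa [hq0, Complex.ofReal_one] at this
      have h6 : ‖(c A 0 w - 1) * Z w‖ ≤ B / Real.log A * 2 := by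
        rw [norm_mul]
        exact mul_le_mul h5 (hZ2 w (by linarith)) (norm_nonneg _) (by positivity)
      have h7 := hone w (by linarith)
      have h8 : K₂ / Real.log A + B / Real.log A * 2 ≤ 1 / 100 := by
        have h9 : K₂ / Real.log A + B / Real.log A * 2 = (2 * B + K₂) / Real.log A := by
          field_simp
          ring
        rw [h9, div_le_div_iff₀ hl0 (by norm_num)]
        linarith
      refine (norm_add_le _ _).trans ?_
      have h10 := norm_add_le ((c A 0 w - 1) * Z w) (Z w - 1)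
      linarith
    refine ⟨by linarith [hone s (by linarith)], by linarith, ?_, ?_⟩
    · have := hV1 s (by simp)
      linarith
    · have hdiff : DiffContOnCl ℂ (fun z => VQ n N m A Z z - 1) (ball s (1 / 4)) := by
        refine DifferentiableOn.diffContOnCl ?_
        rw [closure_ball s (by norm_num)]
        intro w hw
        rw [mem_closedBall, dist_eq_norm] at hw
        obtain ⟨-, h3, -⟩ := hc2 A Z w (by linarith) hZ.diff (by linarith [re_ge' hw])
        exact (h3.sub_const 1).differentiableWithinAt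
      have h3 := Complex.norm_deriv_le_of_forall_mem_sphere_norm_le (C := 3 / 100)
        (by norm_num : (0 : ℝ) < 1 / 4) hdiff (by
          intro w hw
          apply hV1
          rw [← dist_eq_norm]
          exact le_of_eq hw)
      rw [deriv_sub_const_fun] at h3
      linarith

end Pool.Agent.H19.CRG
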