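import Pool.Agent.H65.CRG.TL
import Pool.Agent.H19.CRZ.SY

/-!
# The symmetry of the zeros, general degree
-/

set_option autoImplicit false

open Complex Set MeasureTheory Filter Topology
open Pool.Agent.H65.CRZ Pool.Agent.H65.CRG Pool.Agent.H19.CRZ

namespace Pool.Agent.H19.CRG

/-- the order of `Z` and of the reflected points -/
lemma order_symg {n : ℕ} {C A : ℝ} {Z : ℂ → ℂ} (hA : 0 < A) (h : LFg n C A Z) {ρ : ℂ} (hρ : 0 < ρ.im) :
    analyticOrderAt Z ρ = analyticOrderAt Z (1 - (starRingEnd ℂ) ρ) := by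
  obtain ⟨Λ, ε, hΛ, hε, hg, hfe⟩ := h.fe
  have hε0 : ε ≠ 0 := by
    intro h0
    rw [h0, norm_zero] at hε
    exact zero_ne_one hε
  have hA0 : (A : ℂ) ≠ 0 := by exact_mod_cast hA.ne'
  have key : ∀ z : ℂ, 0 < z.im → analyticOrderAt Λ z = analyticOrderAt Z z := by
    intro z hz
    set Y : ℂ → ℂ := fun w => (A : ℂ) ^ w * Gamma w ^ n with hY
    have hYd : ∀ w : ℂ, 0 < w.im → DifferentiableAt ℂ Y w := by
      intro w hw
      refine DifferentiableAt.mul ?_ ((Complex.differentiableAt_Gamma _ (no_pole hw)).pow n)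
      exact DifferentiableAt.const_cpow differentiableAt_id (Or.inl hA0)
    have hYa : AnalyticAt ℂ Y z := by
      rw [Complex.analyticAt_iff_eventually_differentiableAt]
      filter_upwards [isOpen_im.mem_nhds hz] with w hw
      exact hYd w hw
    have hYne : Y z ≠ 0 := by
      refine mul_ne_zero ?_ (pow_ne_zero n (Complex.Gamma_ne_zero (no_pole hz)))
      rw [Complex.cpow_ne_zero_iff]
      exact Or.inl hA0
    have h1 : analyticOrderAt Λ z = analyticOrderAt (Y * Z) z := by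
      refine analyticOrderAt_congr ?_
      filter_upwards [isOpen_im.mem_nhds hz] with w hw
      have hw' : 0 < w.im := hw
      exact hg w (no_pole hw')
    rw [h1, analyticOrderAt_mul hYa (h.diff.analyticAt z), hYa.analyticOrderAt_eq_zero.2 hYne,
      zero_add]
  have hσ : 0 < (1 - (starRingEnd ℂ) ρ).im := by simpa using hρ
  rw [← key ρ hρ, ← key _ hσ]
  have h2 : Λ = (fun _ => ε) * rf Λ := by
    funext s
    rw [Pi.mul_apply, rf]
    exact hfe s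
  have h3 : AnalyticAt ℂ (fun _ : ℂ => ε) ρ := analyticAt_const
  have h4 : analyticOrderAt ((fun _ => ε) * rf Λ) ρ = analyticOrderAt Λ (1 - (starRingEnd ℂ) ρ) := by
    rw [analyticOrderAt_mul h3 (analyticAt_rf (hΛ.analyticAt _)),
      h3.analyticOrderAt_eq_zero.2 hε0, zero_add, order_rf (hΛ.analyticAt _)]
  rw [← h2] at h4
  exact h4

lemma zero_symg {n : ℕ} {C A : ℝ} {Z : ℂ → ℂ} (hA : 0 < A) (h : LFg n C A Z) {ρ : ℂ} (hρ : 0 < ρ.im)
    (hz : Z ρ = 0) : Z (1 - (starRingEnd ℂ) ρ) = 0 := by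
  have h1 := order_symg hA h hρ
  have h2 : analyticOrderAt Z ρ ≠ 0 := by
    rw [(h.diff.analyticAt ρ).analyticOrderAt_ne_zero]
    exact hz
  rw [h1, (h.diff.analyticAt _).analyticOrderAt_ne_zero] at h2
  exact h2

theorem pf_SY (_h1 : Pool.Agent.H65.CRZ.T_G2) : Pool.Agent.H65.CRG.T_SY := by
  classical
  intro n C A b T hA hb hC Z hZ
  have hCnn : 0 ≤ C := by
    have h1 := hZ.one 2 (by norm_num)
    have h2 : 0 ≤ C * (2 : ℝ) ^ (-(2 : ℂ).re) := le_trans (norm_nonneg _) h1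
    have h3 : (0 : ℝ) < (2 : ℝ) ^ (-(2 : ℂ).re) := Real.rpow_pos_of_pos (by norm_num) _
    exact nonneg_of_mul_nonneg_left h2 h3
  have hne : ∀ s : ℂ, b ≤ s.re → Z s ≠ 0 := by
    intro s hs h0
    have h1 := hZ.one s (by linarith)
    rw [h0] at h1
    have h2 : (2 : ℝ) ^ (-s.re) ≤ (2 : ℝ) ^ (-b) :=
      Real.rpow_le_rpow_of_exponent_le (by norm_num) (by linarith)
    have h3 : C * (2 : ℝ) ^ (-s.re) ≤ C * (2 : ℝ) ^ (-b) := mul_le_mul_of_nonneg_left h2 hCnn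
    simp only [zero_sub, norm_neg, norm_one] at h1
    linarith
  have hre : ∀ ρ ∈ St T, Z ρ = 0 → 1 - b < ρ.re ∧ ρ.re < b := by
    intro ρ hρ h0
    constructor
    · by_contra hcon
      push Not at hcon
      have h1 := zero_symg hA hZ hρ.1 h0
      refine hne _ ?_ h1
      simp only [sub_re, one_re, conj_re]
      linarith
    · by_contra hcon
      push Not at hcon
      exact hne ρ hcon h0
  have hfin : {ρ : ℂ | ρ ∈ St T ∧ Z ρ = 0}.Finite := by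
    have h1 : IsCompact (Icc (1 - b) b ×ℂ Icc 0 T) := isCompact_Icc.reProdIm isCompact_Icc
    refine (zeros_finite hZ.diff (hne b (by simp)) h1).subset ?_
    rintro ρ ⟨h2, h3⟩
    refine ⟨?_, h3⟩
    rw [Complex.mem_reProdIm]
    have h4 := hre ρ h2 h3
    exact ⟨⟨h4.1.le, h4.2.le⟩, ⟨h2.1.le, h2.2.le⟩⟩
  refine ⟨hfin, hre, ?_⟩
  set F := hfin.toFinset with hF
  have hmem : ∀ ρ, ρ ∈ F ↔ ρ ∈ St T ∧ Z ρ = 0 := by
    intro ρ
    rw [hF, Set.Finite.mem_toFinset]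
    exact Iff.rfl
  have hsum : ∀ (S : Set ℂ) (G : Finset ℂ), (∀ ρ, ρ ∈ G ↔ ρ ∈ S ∧ Z ρ = 0) →
      zc Z S = ∑ ρ ∈ G, (analyticOrderNatAt Z ρ : ℝ) := by
    intro S G hG
    rw [zc]
    have h1 : {ρ : ℂ | ρ ∈ S ∧ Z ρ = 0} = (G : Set ℂ) := by
      ext ρ
      rw [Finset.mem_coe, hG ρ]
      exact Iff.rfl
    rw [h1, finsum_mem_coe_finset]
  rw [hsum (St T) F hmem,
    hsum {ρ : ℂ | 1 / 2 < ρ.re ∧ ρ.re < b ∧ ρ ∈ St T} (F.filter fun ρ => 1 / 2 < ρ.re) (by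
      intro ρ
      rw [Finset.mem_filter, hmem]
      constructor
      · rintro ⟨⟨h1, h2⟩, h3⟩
        exact ⟨⟨h3, (hre ρ h1 h2).2, h1⟩, h2⟩
      · rintro ⟨⟨h1, h2, h3⟩, h4⟩
        exact ⟨⟨h3, h4⟩, h1⟩),
    hsum {ρ : ℂ | ρ.re = 1 / 2 ∧ ρ ∈ St T} (F.filter fun ρ => ρ.re = 1 / 2) (by
      intro ρ
      rw [Finset.mem_filter, hmem]
      constructor
      · rintro ⟨⟨h1, h2⟩, h3⟩
        exact ⟨⟨h3, h1⟩, h2⟩
      · rintro ⟨⟨h1, h2⟩, h3⟩
        exact ⟨⟨h2, h3⟩, h1⟩)]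
  have hsp : ∑ ρ ∈ F, (analyticOrderNatAt Z ρ : ℝ) =
      ∑ ρ ∈ F.filter (fun ρ => 1 / 2 < ρ.re), (analyticOrderNatAt Z ρ : ℝ) +
      (∑ ρ ∈ F.filter (fun ρ => ρ.re = 1 / 2), (analyticOrderNatAt Z ρ : ℝ) +
      ∑ ρ ∈ F.filter (fun ρ => ρ.re < 1 / 2), (analyticOrderNatAt Z ρ : ℝ)) := by
    rw [Finset.sum_filter, Finset.sum_filter, Finset.sum_filter, ← Finset.sum_add_distrib,
      ← Finset.sum_add_distrib]
    apply Finset.sum_congr rfl
    intro ρ _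
    rcases lt_trichotomy ρ.re (1 / 2) with h | h | h
    · rw [if_neg (not_lt.2 h.le), if_neg h.ne, if_pos h]
      ring
    · rw [if_neg (not_lt.2 h.le), if_pos h, if_neg (not_lt.2 h.ge)]
      ring
    · rw [if_pos h, if_neg h.ne', if_neg (not_lt.2 h.le)]
      ring
  have hrefl : ∑ ρ ∈ F.filter (fun ρ => ρ.re < 1 / 2), (analyticOrderNatAt Z ρ : ℝ) =
      ∑ ρ ∈ F.filter (fun ρ => 1 / 2 < ρ.re), (analyticOrderNatAt Z ρ : ℝ) := by
    refine Finset.sum_nbij' (fun ρ => 1 - (starRingEnd ℂ) ρ) (fun ρ => 1 - (starRingEnd ℂ) ρ)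
      ?_ ?_ ?_ ?_ ?_
    · intro ρ hρ
      rw [Finset.mem_filter, hmem] at hρ ⊢
      obtain ⟨⟨h1, h2⟩, h3⟩ := hρ
      refine ⟨⟨⟨?_, ?_⟩, zero_symg hA hZ h1.1 h2⟩, ?_⟩
      · simpa using h1.1
      · simpa using h1.2
      · simp only [sub_re, one_re, conj_re]
        linarith
    · intro ρ hρ
      rw [Finset.mem_filter, hmem] at hρ ⊢
      obtain ⟨⟨h1, h2⟩, h3⟩ := hρ
      refine ⟨⟨⟨?_, ?_⟩, zero_symg hA hZ h1.1 h2⟩, ?_⟩
      · simpa using h1.1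
      · simpa using h1.2
      · simp only [sub_re, one_re, conj_re]
        linarith
    · intro ρ _
      simp
    · intro ρ _
      simp
    · intro ρ hρ
      rw [Finset.mem_filter, hmem] at hρ
      simp only [analyticOrderNatAt]
      rw [order_symg hA hZ hρ.1.1.1]
  rw [hsp, hrefl]
  ring

end Pool.Agent.H19.CRG
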