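import Pool.Agent.H65.CRG.TD
import Pool.Agent.H37.CV.IE
import Pool.Agent.H37.CV.SM

/-!
# From the ray class characters to the irreducible characters, general degree
-/

set_option autoImplicit false

open NumberField Complex Filter Topology

namespace Pool.Agent.H19.CRG

open Pool.Agent.H28.RC Pool.Agent.H25 Pool.Agent.H25.HK Pool.Agent.H37.CV Pool.Agent.H37.CA
open Pool.Agent.H65.CRZ (Zx)

/-- every Galois number field has Frobenius elements -/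
theorem nonempty_Frb (L : Type) [Field L] [NumberField L] [IsGalois ℚ L] : Nonempty (Frb L) := by
  have hex : ∀ p : Nat.Primes, ∃ Q : Ideal (𝓞 L), Q.IsPrime ∧ ((p : ℕ) : 𝓞 L) ∈ Q ∧
      ∃ g : L ≃ₐ[ℚ] L, ∀ x : 𝓞 L, g • x - x ^ (p : ℕ) ∈ Q := by
    intro p
    have hp : Fact (p : ℕ).Prime := ⟨p.2⟩
    have hmax : (Ideal.span {((p : ℕ) : ℤ)}).IsMaximal := inferInstance
    obtain ⟨⟨Q, hQ1, hQ2⟩⟩ :
        Nonempty ((Ideal.span {((p : ℕ) : ℤ)}).primesOver (𝓞 L)) := inferInstance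
    have hmem : ((p : ℕ) : 𝓞 L) ∈ Q := by
      have h1 : ((p : ℕ) : ℤ) ∈ Ideal.span {((p : ℕ) : ℤ)} :=
        Ideal.mem_span_singleton_self _
      rw [Ideal.over_def Q (Ideal.span {((p : ℕ) : ℤ)}), Ideal.mem_comap] at h1
      simpa using h1
    have hQ0 : Q ≠ ⊥ := by
      rintro rfl
      have h1 : ((p : ℕ) : 𝓞 L) = 0 := by simpa using hmem
      exact p.2.ne_zero (by exact_mod_cast h1)
    have hQ5 : Q.IsMaximal := hQ1.isMaximal hQ0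
    have : Finite (𝓞 L ⧸ Q) := Ideal.finiteQuotientOfFreeOfNeBot Q hQ0
    refine ⟨Q, hQ1, hmem, ?_⟩
    obtain ⟨g, hg⟩ := IsArithFrobAt.exists_of_isInvariant ℤ (L ≃ₐ[ℚ] L) Q
    refine ⟨g, fun x => ?_⟩
    have h1 := hg x
    have h2 : Nat.card (ℤ ⧸ Q.under ℤ) = (p : ℕ) := by
      rw [← Ideal.over_def Q (Ideal.span {((p : ℕ) : ℤ)}), Int.card_ideal_quot]
    rw [h2] at h1
    exact h1
  choose P hP hmem Fr hFr using hex
  exact ⟨⟨P, hP, hmem, Fr, hFr⟩⟩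

theorem Zx_ent {K : Type} [Field K] [NumberField K] [IsTotallyComplex K] (hEN : T_EN)
    (χ : RCC K) (h : χ.f ≠ ⊤) : IsEnt χ (Zx χ) := by
  obtain ⟨Z, -, -, hZ, -⟩ := hEN K χ h
  have hex : ∃ Z, IsEnt χ Z := ⟨Z, hZ⟩
  unfold Pool.Agent.H65.CRZ.Zx
  rw [dif_pos hex]
  exact hex.choose_spec

theorem Zx_eq {K : Type} [Field K] [NumberField K] {χ χ' : RCC K} (h : IsEnt χ (Zx χ))
    (h' : IsEnt χ' (Zx χ')) (hL : ∀ s : ℂ, 1 < s.re → Lc χ s = Lc χ' s) : Zx χ = Zx χ' := by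
  have ha : AnalyticOnNhd ℂ (Zx χ) Set.univ :=
    h.1.differentiableOn.analyticOnNhd isOpen_univ
  have hb : AnalyticOnNhd ℂ (Zx χ') Set.univ :=
    h'.1.differentiableOn.analyticOnNhd isOpen_univ
  have hev : Zx χ =ᶠ[𝓝 (2 : ℂ)] Zx χ' := by
    have ho : IsOpen {s : ℂ | 1 < s.re} := isOpen_lt continuous_const Complex.continuous_re
    have h2 : (2 : ℂ) ∈ {s : ℂ | 1 < s.re} := by
      simp
    filter_upwards [ho.mem_nhds h2] with s hs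
    rw [h.2 s hs, h'.2 s hs, hL s hs]
  funext s
  exact ha.eqOn_of_preconnected_of_eventuallyEq hb isPreconnected_univ (Set.mem_univ _) hev
    (Set.mem_univ s)

/-- a sum over the fibres -/
theorem fib_sum {α β : Type} {P S : Set α} (hP : P.Finite) (hS : S ⊆ P) (I : α → β) (d : ℕ)
    (hfib : ∀ f ∈ I '' S, {χ | χ ∈ S ∧ I χ = f}.ncard ≤ d) (x : α → ℝ) (y : β → ℝ)
    (hxy : ∀ χ ∈ S, x χ = y (I χ)) (hx0 : ∀ χ ∈ P, 0 ≤ x χ) (W : ℝ) (hxW : ∀ χ ∈ P, x χ ≤ W) :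
    ∑ᶠ χ ∈ P, x χ ≤ d * (∑ᶠ f ∈ I '' S, y f) + (P \ S).ncard * W := by
  classical
  obtain ⟨Pf, rfl⟩ : ∃ Pf : Finset α, (Pf : Set α) = P := ⟨hP.toFinset, hP.coe_toFinset⟩
  obtain ⟨Sf, rfl⟩ : ∃ Sf : Finset α, (Sf : Set α) = S :=
    ⟨(hP.subset hS).toFinset, (hP.subset hS).coe_toFinset⟩
  have hS' : Sf ⊆ Pf := by exact_mod_cast hS
  have h1 : I '' (Sf : Set α) = ((Sf.image I : Finset β) : Set β) := by
    rw [Finset.coe_image]
  have h2 : (Pf : Set α) \ (Sf : Set α) = ((Pf \ Sf : Finset α) : Set α) := by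
    rw [Finset.coe_sdiff]
  rw [h1, h2, finsum_mem_coe_finset, finsum_mem_coe_finset, Set.ncard_coe_finset,
    ← Finset.sum_sdiff hS', add_comm]
  refine add_le_add ?_ ?_
  · have h3 : ∑ χ ∈ Sf, x χ = ∑ χ ∈ Sf, y (I χ) :=
      Finset.sum_congr rfl fun χ hχ => hxy χ (by exact_mod_cast hχ)
    rw [h3, Finset.sum_comp y I, Finset.mul_sum]
    refine Finset.sum_le_sum fun f hf => ?_
    obtain ⟨χ, hχ, rfl⟩ := Finset.mem_image.1 hf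
    have h4 : 0 ≤ y (I χ) := by
      rw [← hxy χ (by exact_mod_cast hχ)]
      exact hx0 χ (hS (by exact_mod_cast hχ))
    have h5 := hfib (I χ) ⟨χ, by exact_mod_cast hχ, rfl⟩
    have h6 : {χ' | χ' ∈ (Sf : Set α) ∧ I χ' = I χ} =
        ((Sf.filter fun a => I a = I χ : Finset α) : Set α) := by
      ext a
      simp
    rw [h6, Set.ncard_coe_finset] at h5
    rw [nsmul_eq_mul]
    exact mul_le_mul_of_nonneg_right (by exact_mod_cast h5) h4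
  · have h3 := Finset.sum_le_card_nsmul (Pf \ Sf) x W fun χ hχ =>
      hxW χ (by exact_mod_cast (Finset.mem_sdiff.1 hχ).1)
    rwa [nsmul_eq_mul] at h3

/-- the choice of the parameter -/
theorem choice_t (d ε : ℝ) (hε : 0 < ε) : ∃ t : ℝ, 0 < t ∧ t < 1 ∧
    (1 - ε) * (1 + d ^ 2 * t) ≤ 1 - 3 * t ∧ 1 + d ^ 2 * t ≤ (1 + ε) * (1 - t) ∧
      2 * t ≤ ε * (1 - t) := by
  have hD : 0 < d ^ 2 + 4 + ε := by positivity
  have h1 : ε / (d ^ 2 + 4 + ε) * (d ^ 2 + 4 + ε) = ε := div_mul_cancel₀ _ hD.ne'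
  have h2 : 0 < ε / (d ^ 2 + 4 + ε) := by positivity
  have h3 : ε / (d ^ 2 + 4 + ε) < 1 := by
    rw [div_lt_one hD]
    nlinarith [sq_nonneg d]
  generalize ε / (d ^ 2 + 4 + ε) = t at h1 h2 h3
  have h4 : 0 ≤ d ^ 2 * t := by positivity
  have h5 : 0 < ε * t := by positivity
  have h6 : 0 ≤ ε * (d ^ 2 * t) := by positivity
  refine ⟨t, h2, h3, ?_, ?_, ?_⟩
  · nlinarith
  · nlinarith
  · nlinarith

open scoped Classical in
theorem tf_of (hEN : T_EN) (hFSI : T_FSI) (hCNU : T_CNU) (hGCT : T_GCT) (hIIR : T_IIR)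
    (hFIB : T_FIB) (hGRF : T_GRF) (hCOM : T_COM) (hCOR : T_COR) (hCNT : T_CNT) (hPNC : T_PNC)
    (hALF : T_ALF) (hOR : T_OR) : Pool.Agent.H65.CRG.T_TF := by
  intro F _ _ _ _ ε hε
  obtain ⟨d, hd⟩ : ∃ d : ℕ, d = Module.finrank ℚ F := ⟨_, rfl⟩
  have hd0 : 0 < d := by
    rw [hd]
    exact Module.finrank_pos
  have hd2 : (0 : ℝ) < d := by exact_mod_cast hd0
  obtain ⟨t, ht0, ht1, hta, htb, htc⟩ := choice_t d ε hε
  obtain ⟨q₂, hq2⟩ := hPNC F t ht0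
  obtain ⟨q₃, hq3⟩ := hCNT F t ht0
  obtain ⟨q₄, hq4⟩ := hCNU F t ht0
  refine ⟨max q₂ (max q₃ q₄), fun q hq hqq L _ _ _ _ hL => ?_⟩
  have hqb : q₂ ≤ q := (le_max_left _ _).trans hqq
  have hqc : q₃ ≤ q := ((le_max_left _ _).trans (le_max_right _ _)).trans hqq
  have hqd : q₄ ≤ q := ((le_max_right _ _).trans (le_max_right _ _)).trans hqq
  have hm : qi F q ≠ ⊥ := qi_ne_bot F q hq
  have hmt : qi F q ≠ ⊤ := qi_ne_top F q hq
  obtain ⟨β, hβ⟩ := hCOR F L (qi F q) hm hmt hL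
  obtain ⟨hnorm, hidx, hlift, hres, -⟩ := hGRF F L
  have := hnorm
  rw [← hd] at hidx
  have hcom := hCOM F L (qi F q) hL
  obtain ⟨hc1, hc2⟩ := hq3 q hq hqc L β hβ
  have hc3 := hq4 q hq hqd L β hβ
  have hb := hq2 q hq hqb
  have hChf := (hOR F (qi F q) (qi F q) hm le_rfl).1
  have hNpos' := (hOR F (qi F q) (qi F q) hm le_rfl).2.1
  obtain ⟨N, hN⟩ : ∃ N : ℝ, N = (nc (qi F q) (qi F q) : ℝ) := ⟨_, rfl⟩
  rw [← hN] at hc1 hc2 hc3 hb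
  have hNpos : 0 < N := by
    rw [hN]
    exact_mod_cast hNpos'
  obtain ⟨hIf, hIc⟩ := hGCT (L ≃ₐ[ℚ] L) (HF F L) hcom
  rw [hidx] at hIc
  have hfinhom : Finite (HF F L →* ℂˣ) := by
    have : (Set.univ : Set (HF F L →* ℂˣ)).Finite := by
      rw [← hβ.1.image_eq]
      exact hChf.image β
    exact Set.finite_univ_iff.1 this
  have hbij := bij_Pr hm hmt
  have hPf : (Pr F (qi F q)).Finite := by
    have h1 : ((fun χ : RCC F => χ.ψ) '' (Pr F (qi F q))).Finite := by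
      refine hChf.subset ?_
      rintro _ ⟨χ, hχ, rfl⟩
      exact (hbij.mapsTo hχ).1
    exact Set.Finite.of_finite_image h1 hbij.injOn
  have hinj : Set.InjOn (fun χ : RCC F => β χ.ψ) (Pr F (qi F q)) := by
    intro χ hχ χ' hχ' h
    refine hbij.injOn hχ hχ' ?_
    exact hβ.1.injOn (hbij.mapsTo hχ).1 (hbij.mapsTo hχ').1 h
  obtain ⟨S, hS⟩ : ∃ S : Set (RCC F), S = {χ | χ ∈ Pr F (qi F q) ∧ β χ.ψ ∈ Gen (HF F L) ∧
    β χ.ψ ∈ Nsd (HF F L)} := ⟨_, rfl⟩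
  have hSm : ∀ χ, χ ∈ S → χ ∈ Pr F (qi F q) ∧ β χ.ψ ∈ Gen (HF F L) ∧
      β χ.ψ ∈ Nsd (HF F L) := by
    intro χ hχ
    rw [hS] at hχ
    exact hχ
  have hSP : S ⊆ Pr F (qi F q) := fun χ hχ => (hSm χ hχ).1
  have hdiff : ((Pr F (qi F q) \ S).ncard : ℝ) ≤ 2 * t * N := by
    rw [← (hinj.mono Set.sdiff_subset).ncard_image]
    have h1 : (fun χ : RCC F => β χ.ψ) '' (Pr F (qi F q) \ S) ⊆
        (Gen (HF F L))ᶜ ∪ (Nsd (HF F L))ᶜ := by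
      rintro _ ⟨χ, ⟨hχ1, hχ2⟩, rfl⟩
      by_cases h2 : β χ.ψ ∈ Gen (HF F L)
      · refine Or.inr fun h3 => hχ2 ?_
        rw [hS]
        exact ⟨hχ1, h2, h3⟩
      · exact Or.inl h2
    have h2 := (Set.ncard_le_ncard h1 (Set.toFinite _)).trans (Set.ncard_union_le _ _)
    have h3 : (((fun χ : RCC F => β χ.ψ) '' (Pr F (qi F q) \ S)).ncard : ℝ) ≤
        ((Gen (HF F L))ᶜ.ncard : ℝ) + ((Nsd (HF F L))ᶜ.ncard : ℝ) := by exact_mod_cast h2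
    linarith
  have hScard : ((Pr F (qi F q)).ncard : ℝ) = (Pr F (qi F q) \ S).ncard + S.ncard := by
    have := Set.ncard_sdiff_add_ncard_of_subset hSP hPf
    rw [← this]
    push_cast
    ring
  -- the induced characters
  obtain ⟨I, hI⟩ : ∃ I : RCC F → ((L ≃ₐ[ℚ] L) → ℂ), ∀ χ, I χ = indc (HF F L) (β χ.ψ) :=
    ⟨fun χ => indc (HF F L) (β χ.ψ), fun _ => rfl⟩
  have hIrr : ∀ χ ∈ S, I χ ∈ Irr (L ≃ₐ[ℚ] L) ∧ I χ 1 = (d : ℂ) ∧ nu (I χ) = 0 := by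
    intro χ hχ
    obtain ⟨-, hgen, hnsd⟩ := hSm χ hχ
    obtain ⟨h1, h2⟩ := hIIR (L ≃ₐ[ℚ] L) (HF F L) hcom (β χ.ψ) hgen
    rw [hI χ]
    refine ⟨h1, ?_, hFSI (L ≃ₐ[ℚ] L) (HF F L) hcom (β χ.ψ) hnsd⟩
    rw [h2, hidx]
  have hEnt : ∀ χ ∈ Pr F (qi F q), IsEnt χ (Zx χ) := by
    intro χ hχ
    refine Zx_ent hEN χ ?_
    have h1 : χ.f = qi F q := hχ
    rw [h1]
    exact hmt
  have hAL : ∀ χ ∈ S, ∀ (D : Frb L) (V : Type) [AddCommGroup V] [Module ℂ V]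
      [FiniteDimensional ℂ V] (ρ : Representation ℂ (L ≃ₐ[ℚ] L) V), I χ = ρ.character →
      ∀ s : ℂ, 1 < s.re → HasProd (fun p => (D.rep V ρ).euler p s) (Lc χ s) := by
    intro χ hχ D V _ _ _ ρ hρ s hs
    rw [hI χ] at hρ
    refine hALF F L (qi F q) χ (β χ.ψ) hm ?_ D V ρ (fun g => (congrFun hρ g).symm) s hs
    intro P g h hP hg hh
    exact hβ.2 χ.ψ (hbij.mapsTo (hSP hχ)).1 P g h hP hg hh
  have hkey : ∀ χ ∈ S, ∀ χ' ∈ S, I χ = I χ' → Zx χ = Zx χ' := by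
    intro χ hχ χ' hχ' h
    obtain ⟨D⟩ := nonempty_Frb L
    obtain ⟨V, hV1, hV2, hV3, ρ, hρ, hρ'⟩ := (hIrr χ hχ).1
    refine Zx_eq (hEnt χ (hSP hχ)) (hEnt χ' (hSP hχ')) fun s hs => ?_
    exact (hAL χ hχ D V ρ hρ' s hs).unique (hAL χ' hχ' D V ρ (h.symm.trans hρ') s hs)
  obtain ⟨Λ, hΛ⟩ : ∃ Λ : ((L ≃ₐ[ℚ] L) → ℂ) → ℂ → ℂ, ∀ χ ∈ S, Λ (I χ) = Zx χ := by
    refine ⟨fun f => if h : ∃ χ, χ ∈ S ∧ I χ = f then Zx h.choose else 0, fun χ hχ => ?_⟩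
    have h : ∃ χ', χ' ∈ S ∧ I χ' = I χ := ⟨χ, hχ, rfl⟩
    change (if h : ∃ χ', χ' ∈ S ∧ I χ' = I χ then Zx h.choose else 0) = _
    rw [dif_pos h]
    exact hkey _ h.choose_spec.1 χ hχ h.choose_spec.2
  have hfib : ∀ S' : Set (RCC F), S' ⊆ S → S'.ncard ≤ d * (I '' S').ncard := by
    intro S' hS'
    have h1 := hFIB (L ≃ₐ[ℚ] L) (HF F L) hcom ((fun χ : RCC F => β χ.ψ) '' S')
    rw [hidx, (hinj.mono (hS'.trans hSP)).ncard_image, Set.image_image] at h1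
    have h2 : (fun χ : RCC F => indc (HF F L) (β χ.ψ)) = I := funext fun χ => (hI χ).symm
    rw [h2] at h1
    exact h1
  have hUI : I '' S ⊆ Irr (L ≃ₐ[ℚ] L) := by
    rintro _ ⟨χ, hχ, rfl⟩
    exact (hIrr χ hχ).1
  have hSd : (S.ncard : ℝ) ≤ d * (I '' S).ncard := by
    exact_mod_cast hfib S (Set.Subset.refl _)
  have hUc : ((I '' S).ncard : ℝ) ≤ (Irr (L ≃ₐ[ℚ] L)).ncard := by
    exact_mod_cast Set.ncard_le_ncard hUI hIf
  have hIN : (d : ℝ) * (Irr (L ≃ₐ[ℚ] L)).ncard ≤ (1 + (d : ℝ) ^ 2 * t) * N := by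
    have h5 : (d : ℝ) * (Irr (L ≃ₐ[ℚ] L)).ncard ≤ (Gen (HF F L)).ncard +
        (d : ℝ) ^ 2 * (Gen (HF F L))ᶜ.ncard := by exact_mod_cast hIc
    have h6 : ((Gen (HF F L)).ncard : ℝ) ≤ N := by
      rw [← hc2, ← Set.ncard_univ]
      exact_mod_cast Set.ncard_le_ncard (Set.subset_univ _) (Set.toFinite _)
    nlinarith [mul_le_mul_of_nonneg_left hc1 (sq_nonneg (d : ℝ))]
  have hI0 : (0 : ℝ) ≤ (Irr (L ≃ₐ[ℚ] L)).ncard := Nat.cast_nonneg _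
  refine ⟨hIf, I '' S, Λ, hUI, ?_, ?_, ?_, ?_⟩
  · have h3 : (1 - 3 * t) * N ≤ S.ncard := by linarith
    by_cases h0 : 1 - ε ≤ 0
    · exact (mul_nonpos_of_nonpos_of_nonneg h0 hI0).trans (Nat.cast_nonneg _)
    · rw [not_le] at h0
      refine le_of_mul_le_mul_left ?_ hd2
      refine le_trans ?_ (h3.trans hSd)
      calc (d : ℝ) * ((1 - ε) * (Irr (L ≃ₐ[ℚ] L)).ncard)
          = (1 - ε) * (d * (Irr (L ≃ₐ[ℚ] L)).ncard) := by ring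
        _ ≤ (1 - ε) * ((1 + (d : ℝ) ^ 2 * t) * N) := mul_le_mul_of_nonneg_left hIN h0.le
        _ = ((1 - ε) * (1 + (d : ℝ) ^ 2 * t)) * N := by ring
        _ ≤ _ := mul_le_mul_of_nonneg_right hta hNpos.le
  · rintro _ ⟨χ, hχ, rfl⟩
    obtain ⟨-, h1, h2⟩ := hIrr χ hχ
    refine ⟨by rw [← hd]; exact h1, h2, ⟨χ, hSP hχ, hΛ χ hχ⟩, ?_, ?_⟩
    · rw [hΛ χ hχ]
      exact (hEnt χ (hSP hχ)).1
    · intro D V _ _ _ ρ hρ s hs
      rw [hΛ χ hχ, (hEnt χ (hSP hχ)).2 s hs]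
      exact hAL χ hχ D V ρ hρ s hs
  · rw [← hd]
    have h3 : (d : ℝ) * (I '' S).ncard ≤ d * (Irr (L ≃ₐ[ℚ] L)).ncard :=
      mul_le_mul_of_nonneg_left hUc hd2.le
    have h4 : (1 + (d : ℝ) ^ 2 * t) * N ≤ ((1 + ε) * (1 - t)) * N :=
      mul_le_mul_of_nonneg_right htb hNpos.le
    have h5 : (1 + ε) * ((1 - t) * N) ≤ (1 + ε) * (Pr F (qi F q)).ncard :=
      mul_le_mul_of_nonneg_left hb (by linarith)
    linarith
  · intro w W hw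
    rw [← hd]
    have h1 := fib_sum hPf hSP I d (by
      rintro _ ⟨χ, hχ, rfl⟩
      have h2 := hfib {χ' | χ' ∈ S ∧ I χ' = I χ} (fun χ' h => h.1)
      have h3 : (I '' {χ' | χ' ∈ S ∧ I χ' = I χ}).ncard ≤ 1 := by
        have h4 : I '' {χ' | χ' ∈ S ∧ I χ' = I χ} ⊆ {I χ} := by
          rintro _ ⟨χ', h5, rfl⟩
          exact h5.2
        exact (Set.ncard_le_ncard h4 (Set.finite_singleton _)).trans
          (Set.ncard_singleton _).le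
      exact h2.trans ((Nat.mul_le_mul_left d h3).trans (mul_one d).le))
      (fun χ => w (Zx χ)) (fun f => w (Λ f)) (fun χ hχ => by rw [hΛ χ hχ])
      (fun χ hχ => (hw χ hχ).1) W (fun χ hχ => (hw χ hχ).2)
    refine h1.trans (add_le_add_right ?_ _)
    have hPpos : (0 : ℝ) < (Pr F (qi F q)).ncard := by
      have : 0 < (1 - t) * N := mul_pos (by linarith) hNpos
      linarith
    have hne : (Pr F (qi F q)).Nonempty := by
      rw [Set.nonempty_iff_ne_empty]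
      intro h0
      rw [h0, Set.ncard_empty] at hPpos
      simp at hPpos
    obtain ⟨χ₀, hχ₀⟩ := hne
    have hW : 0 ≤ W := (hw χ₀ hχ₀).1.trans (hw χ₀ hχ₀).2
    have h2 : ((Pr F (qi F q) \ S).ncard : ℝ) ≤ ε * (Pr F (qi F q)).ncard := by
      have h3 : 2 * t * N ≤ (ε * (1 - t)) * N := mul_le_mul_of_nonneg_right htc hNpos.le
      have h4 : ε * ((1 - t) * N) ≤ ε * (Pr F (qi F q)).ncard :=
        mul_le_mul_of_nonneg_left hb hε.le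
      linarith
    calc ((Pr F (qi F q) \ S).ncard : ℝ) * W ≤ (ε * (Pr F (qi F q)).ncard) * W :=
          mul_le_mul_of_nonneg_right h2 hW
      _ = ε * W * (Pr F (qi F q)).ncard := by ring

end Pool.Agent.H19.CRG
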